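import Mathlib

set_option autoImplicit false

/-!
# Negative correlation of occupancy events, in counting form
-/

namespace Pool.Agent.TH104.LS

open Finset

variable {V X : Type} [Fintype V] [DecidableEq V] [Fintype X] [DecidableEq X]

lemma step (E : Finset (V → X)) (z : V) (a : X)
    (hE : ∀ s ∈ E, s z = a → ∀ x, Function.update s z x ∈ E) :
    E.card * (Fintype.card X - 1) ≤
      (E.filter (fun s => s z ≠ a)).card * Fintype.card X := by
  have h1 : (E.filter (fun s => s z = a)).card * (Fintype.card X - 1) ≤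
      (E.filter (fun s => s z ≠ a)).card := by
    have h2 : (univ.erase a : Finset X).card = Fintype.card X - 1 := by
      rw [Finset.card_erase_of_mem (mem_univ a), Finset.card_univ]
    rw [← h2, ← Finset.card_product]
    apply Finset.card_le_card_of_injOn (fun p => Function.update p.1 z p.2)
    · intro p hp
      rw [mem_coe, mem_product, mem_filter, mem_erase] at hp
      rw [mem_coe, mem_filter]
      refine ⟨hE p.1 hp.1.1 hp.1.2 p.2, ?_⟩
      show Function.update p.1 z p.2 z ≠ a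
      rw [Function.update_self]
      exact hp.2.1
    · intro p hp p' hp' h
      rw [mem_coe, mem_product, mem_filter] at hp hp'
      simp only at h
      have e1 : p.2 = p'.2 := by
        have := congrFun h z
        rwa [Function.update_self, Function.update_self] at this
      have e2 : p.1 = p'.1 := by
        funext w
        by_cases hw : w = z
        · rw [hw, hp.1.2, hp'.1.2]
        · have := congrFun h w
          rwa [Function.update_of_ne hw, Function.update_of_ne hw] at this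
      exact Prod.ext e2 e1
  have h3 : E.card = (E.filter (fun s => s z = a)).card + (E.filter (fun s => s z ≠ a)).card :=
    (Finset.card_filter_add_card_filter_not (fun s : V → X => s z = a)).symm
  have hX : 0 < Fintype.card X := Fintype.card_pos_iff.2 ⟨a⟩
  obtain ⟨k, hk⟩ : ∃ k, Fintype.card X = k + 1 := ⟨Fintype.card X - 1, by omega⟩
  rw [hk] at h1 ⊢
  rw [h3]
  simp only [Nat.add_sub_cancel] at h1 ⊢
  nlinarith

lemma avoid (a : X) (Z : Finset V) : ∀ (E : Finset (V → X)),
    (∀ z ∈ Z, ∀ s ∈ E, s z = a → ∀ x, Function.update s z x ∈ E) →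
    E.card * (Fintype.card X - 1) ^ Z.card ≤
      (E.filter (fun s => ∀ z ∈ Z, s z ≠ a)).card * Fintype.card X ^ Z.card := by
  induction Z using Finset.induction_on with
  | empty => intro E _; simp
  | insert z Z hz ih =>
    intro E hE
    have h1 := ih E (fun z' hz' => hE z' (mem_insert_of_mem hz'))
    have h2 := step (E.filter (fun s => ∀ z' ∈ Z, s z' ≠ a)) z a (by
      intro s hs hsz x
      rw [mem_filter] at hs ⊢
      refine ⟨hE z (mem_insert_self _ _) s hs.1 hsz x, ?_⟩
      intro z' hz'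
      have hne : z' ≠ z := fun h => hz (h ▸ hz')
      rw [Function.update_of_ne hne]
      exact hs.2 z' hz')
    have h3 : (E.filter (fun s => ∀ z' ∈ insert z Z, s z' ≠ a)) =
        (E.filter (fun s => ∀ z' ∈ Z, s z' ≠ a)).filter (fun s => s z ≠ a) := by
      ext s
      simp only [mem_filter, mem_insert, forall_eq_or_imp]
      tauto
    rw [h3, Finset.card_insert_of_notMem hz, pow_succ, pow_succ]
    calc E.card * ((Fintype.card X - 1) ^ Z.card * (Fintype.card X - 1))
        = (E.card * (Fintype.card X - 1) ^ Z.card) * (Fintype.card X - 1) := by ring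
      _ ≤ ((E.filter (fun s => ∀ z ∈ Z, s z ≠ a)).card * Fintype.card X ^ Z.card) *
            (Fintype.card X - 1) := Nat.mul_le_mul_right _ h1
      _ = ((E.filter (fun s => ∀ z ∈ Z, s z ≠ a)).card * (Fintype.card X - 1)) *
            Fintype.card X ^ Z.card := by ring
      _ ≤ (((E.filter (fun s => ∀ z' ∈ Z, s z' ≠ a)).filter (fun s => s z ≠ a)).card *
            Fintype.card X) * Fintype.card X ^ Z.card := Nat.mul_le_mul_right _ h2
      _ = _ := by ring

/-- real form of `avoid` -/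
lemma avoid_real (a : X) (Z : Finset V) (M : ℕ) (hZ : Z.card ≤ M) (E : Finset (V → X))
    (hE : ∀ z ∈ Z, ∀ s ∈ E, s z = a → ∀ x, Function.update s z x ∈ E) :
    (E.card : ℝ) * (1 - 1 / (Fintype.card X : ℝ)) ^ M ≤
      ((E.filter (fun s => ∀ z ∈ Z, s z ≠ a)).card : ℝ) := by
  have h1 := avoid a Z E hE
  have hX : 0 < Fintype.card X := Fintype.card_pos_iff.2 ⟨a⟩
  have hXr : (0 : ℝ) < Fintype.card X := by exact_mod_cast hX
  have hX1 : (1 : ℝ) ≤ Fintype.card X := by exact_mod_cast hX
  have h2 : (E.card : ℝ) * ((Fintype.card X : ℝ) - 1) ^ Z.card ≤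
      ((E.filter (fun s => ∀ z ∈ Z, s z ≠ a)).card : ℝ) * (Fintype.card X : ℝ) ^ Z.card := by
    have h3 : (((Fintype.card X - 1 : ℕ) : ℝ)) = (Fintype.card X : ℝ) - 1 := by
      rw [Nat.cast_sub hX]; simp
    rw [← h3]
    exact_mod_cast h1
  have h0 : 0 ≤ 1 - 1 / (Fintype.card X : ℝ) := by
    rw [sub_nonneg, div_le_one hXr]; exact hX1
  have h01 : 1 - 1 / (Fintype.card X : ℝ) ≤ 1 := by
    have : 0 ≤ 1 / (Fintype.card X : ℝ) := by positivity
    linarith
  have h4 : (1 - 1 / (Fintype.card X : ℝ)) ^ M ≤ (1 - 1 / (Fintype.card X : ℝ)) ^ Z.card :=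
    pow_le_pow_of_le_one h0 h01 hZ
  have h5 : (E.card : ℝ) * (1 - 1 / (Fintype.card X : ℝ)) ^ Z.card ≤
      ((E.filter (fun s => ∀ z ∈ Z, s z ≠ a)).card : ℝ) := by
    have h6 : (1 - 1 / (Fintype.card X : ℝ)) = ((Fintype.card X : ℝ) - 1) / Fintype.card X := by
      field_simp
    rw [h6, div_pow, ← mul_div_assoc, div_le_iff₀ (by positivity)]
    exact h2
  exact (mul_le_mul_of_nonneg_left h4 (by positivity)).trans h5

/-- negative correlation -/
lemma all_hit (M : ℕ) (Z : X → Finset V) (E0 : Finset (V → X)) (T : Finset X)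
    (hZ : ∀ a ∈ T, (Z a).card ≤ M)
    (hE0 : ∀ a ∈ T, ∀ z ∈ Z a, ∀ s ∈ E0, ∀ x, Function.update s z x ∈ E0) :
    ((E0.filter (fun s => ∀ a ∈ T, ∃ z ∈ Z a, s z = a)).card : ℝ) ≤
      (1 - (1 - 1 / (Fintype.card X : ℝ)) ^ M) ^ T.card * E0.card := by
  induction T using Finset.induction_on with
  | empty => simp
  | insert a T ha ih =>
    have hX : 0 < Fintype.card X := Fintype.card_pos_iff.2 ⟨a⟩
    have hXr : (0 : ℝ) < Fintype.card X := by exact_mod_cast hX
    have hX1 : (1 : ℝ) ≤ Fintype.card X := by exact_mod_cast hX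
    have h0 : 0 ≤ 1 - 1 / (Fintype.card X : ℝ) := by
      rw [sub_nonneg, div_le_one hXr]; exact hX1
    have h01 : 1 - 1 / (Fintype.card X : ℝ) ≤ 1 := by
      have : 0 ≤ 1 / (Fintype.card X : ℝ) := by positivity
      linarith
    have hθ : 0 ≤ 1 - (1 - 1 / (Fintype.card X : ℝ)) ^ M := by
      rw [sub_nonneg]; exact pow_le_one₀ h0 h01
    have ih := ih (fun b hb => hZ b (mem_insert_of_mem hb))
      (fun b hb => hE0 b (mem_insert_of_mem hb))
    set U := E0.filter (fun s => ∀ b ∈ T, ∃ z ∈ Z b, s z = b) with hU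
    have h1 := avoid_real a (Z a) M (hZ a (mem_insert_self _ _)) U (by
      intro z hz s hs hsz x
      rw [hU, mem_filter] at hs ⊢
      refine ⟨hE0 a (mem_insert_self _ _) z hz s hs.1 x, ?_⟩
      intro b hb
      obtain ⟨w, hw1, hw2⟩ := hs.2 b hb
      have hba : b ≠ a := fun h => ha (h ▸ hb)
      have hwz : w ≠ z := by
        rintro rfl
        exact hba (hw2.symm.trans hsz)
      exact ⟨w, hw1, by rw [Function.update_of_ne hwz]; exact hw2⟩)
    have h2 : (E0.filter (fun s => ∀ b ∈ insert a T, ∃ z ∈ Z b, s z = b)) =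
        U.filter (fun s => ¬ ∀ z ∈ Z a, s z ≠ a) := by
      ext s
      simp only [hU, mem_filter, mem_insert, forall_eq_or_imp]
      push Not
      tauto
    have h3 : ((U.filter (fun s => ∀ z ∈ Z a, s z ≠ a)).card : ℝ) +
        ((U.filter (fun s => ¬ ∀ z ∈ Z a, s z ≠ a)).card : ℝ) = U.card := by
      exact_mod_cast Finset.card_filter_add_card_filter_not (s := U) (fun s : V → X => ∀ z ∈ Z a, s z ≠ a)
    rw [h2, Finset.card_insert_of_notMem ha, pow_succ]
    have h4 : ((U.filter (fun s => ¬ ∀ z ∈ Z a, s z ≠ a)).card : ℝ) ≤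
        (1 - (1 - 1 / (Fintype.card X : ℝ)) ^ M) * U.card := by linarith
    refine h4.trans ?_
    have h5 := mul_le_mul_of_nonneg_left ih hθ
    linarith

/-- tail bound for the number of hit colours -/
lemma many_hit (M : ℕ) (Z : X → Finset V) (E0 : Finset (V → X)) (C : Finset X)
    (hZ : ∀ a ∈ C, (Z a).card ≤ M)
    (hE0 : ∀ a ∈ C, ∀ z ∈ Z a, ∀ s ∈ E0, ∀ x, Function.update s z x ∈ E0) (h : ℕ) :
    ((E0.filter (fun s => h ≤ (C.filter (fun a => ∃ z ∈ Z a, s z = a)).card)).card : ℝ) * 2 ^ h ≤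
      (1 + (1 - (1 - 1 / (Fintype.card X : ℝ)) ^ M)) ^ C.card * E0.card := by
  classical
  set θ := (1 - (1 - 1 / (Fintype.card X : ℝ)) ^ M) with hθ
  have h1 : ((E0.filter (fun s => h ≤ (C.filter (fun a => ∃ z ∈ Z a, s z = a)).card)).card : ℝ) *
      2 ^ h ≤ ∑ s ∈ E0, (2 : ℝ) ^ (C.filter (fun a => ∃ z ∈ Z a, s z = a)).card := by
    rw [Finset.card_eq_sum_ones, Nat.cast_sum, Finset.sum_mul]
    refine (Finset.sum_le_sum (f := fun _ => ((1 : ℕ) : ℝ) * 2 ^ h)
      (g := fun s => (2 : ℝ) ^ (C.filter (fun a => ∃ z ∈ Z a, s z = a)).card) ?_).trans ?_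
    · intro s hs
      rw [mem_filter] at hs
      rw [Nat.cast_one, one_mul]
      exact pow_le_pow_right₀ (by norm_num) hs.2
    · refine Finset.sum_le_sum_of_subset_of_nonneg (Finset.filter_subset _ _) ?_
      intro s _ _
      positivity
  refine h1.trans ?_
  have h2 : ∀ s : V → X, (2 : ℝ) ^ (C.filter (fun a => ∃ z ∈ Z a, s z = a)).card =
      ∑ T ∈ C.powerset, (if ∀ a ∈ T, ∃ z ∈ Z a, s z = a then (1 : ℝ) else 0) := by
    intro s
    rw [← Finset.sum_filter, Finset.sum_const, nsmul_eq_mul, mul_one]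
    have h3 : C.powerset.filter (fun T => ∀ a ∈ T, ∃ z ∈ Z a, s z = a) =
        (C.filter (fun a => ∃ z ∈ Z a, s z = a)).powerset := by
      ext T
      simp only [mem_filter, mem_powerset]
      constructor
      · rintro ⟨h4, h5⟩ a ha
        exact mem_filter.2 ⟨h4 ha, h5 a ha⟩
      · intro h4
        exact ⟨fun a ha => (mem_filter.1 (h4 ha)).1, fun a ha => (mem_filter.1 (h4 ha)).2⟩
    rw [h3, Finset.card_powerset]
    push_cast
    rfl
  simp only [h2]
  rw [Finset.sum_comm]
  have h6 : ∀ T ∈ C.powerset, ∑ s ∈ E0, (if ∀ a ∈ T, ∃ z ∈ Z a, s z = a then (1 : ℝ) else 0) ≤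
      θ ^ T.card * E0.card := by
    intro T hT
    rw [mem_powerset] at hT
    rw [← Finset.sum_filter, Finset.sum_const, nsmul_eq_mul, mul_one]
    exact all_hit M Z E0 T (fun a ha => hZ a (hT ha)) (fun a ha => hE0 a (hT ha))
  refine (Finset.sum_le_sum h6).trans ?_
  rw [← Finset.sum_mul]
  have h7 := Finset.sum_pow_mul_eq_add_pow θ 1 C
  simp only [one_pow, mul_one] at h7
  rw [h7, add_comm θ 1]

end Pool.Agent.TH104.LS
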