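import Mathlib
import Pool.Agent.QCube.Lll
import Pool.Agent.TH104.LS.A

set_option autoImplicit false

/-!
# The number of colours seen on exactly one pair, which is not adjacent
-/

namespace Pool.Agent.TH104.LS

open Finset

variable {V X : Type} [Fintype V] [DecidableEq V] [Fintype X] [DecidableEq X]
  (G : SimpleGraph V) [DecidableRel G.Adj]

/-- the colours of `P` seen in `N` on exactly two vertices, which are not adjacent -/
def EP (N : Finset V) (P : Finset X) (s : V → X) : Finset X :=
  P.filter (fun a => ∃ u ∈ N, ∃ w ∈ N, u ≠ w ∧ ¬ G.Adj u w ∧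
    N.filter (fun z => s z = a) = {u, w})

/-- ordered pairs of distinct nonadjacent vertices -/
def NA (N : Finset V) : Finset (V × V) :=
  (N ×ˢ N).filter (fun e => e.1 ≠ e.2 ∧ ¬ G.Adj e.1 e.2)

lemma EP_congr {N : Finset V} {P : Finset X} {s s' : V → X} (h : ∀ z ∈ N, s z = s' z) :
    EP G N P s = EP G N P s' := by
  unfold EP
  apply Finset.filter_congr
  intro a _
  have : N.filter (fun z => s z = a) = N.filter (fun z => s' z = a) := by
    apply Finset.filter_congr
    intro z hz
    rw [h z hz]
  rw [this]

lemma EP_lip {N : Finset V} {P : Finset X} (z : V) {s s' : V → X}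
    (h : ∀ y, y ≠ z → s y = s' y) : (EP G N P s).card ≤ (EP G N P s').card + 2 := by
  have hsub : EP G N P s ⊆ EP G N P s' ∪ {s z, s' z} := by
    intro a ha
    rw [mem_union]
    by_cases h1 : a ∈ ({s z, s' z} : Finset X)
    · right; exact h1
    · left
      rw [mem_insert, mem_singleton, not_or] at h1
      unfold EP at ha ⊢
      rw [mem_filter] at ha ⊢
      have h2 : N.filter (fun y => s' y = a) = N.filter (fun y => s y = a) := by
        apply Finset.filter_congr
        intro y _
        by_cases hy : y = z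
        · subst hy
          constructor
          · intro h3; exact absurd h3.symm h1.2
          · intro h3; exact absurd h3.symm h1.1
        · rw [h y hy]
      rw [h2]
      exact ha
  refine (Finset.card_le_card hsub).trans ((Finset.card_union_le _ _).trans ?_)
  exact Nat.add_le_add_left Finset.card_le_two _

/-- counting the functions with prescribed values at two points -/
lemma card_two (u w : V) (huw : u ≠ w) (a : X) :
    Fintype.card (V → X) ≤
      (univ.filter (fun s : V → X => s u = a ∧ s w = a)).card * Fintype.card X ^ 2 := by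
  have h1 : (univ : Finset (V → X)).card ≤
      ((univ.filter (fun s : V → X => s u = a ∧ s w = a)) ×ˢ (univ : Finset (X × X))).card := by
    apply Finset.card_le_card_of_injOn
      (fun s => (Function.update (Function.update s u a) w a, (s u, s w)))
    · intro s _
      rw [mem_coe, mem_product]
      refine ⟨?_, mem_univ _⟩
      rw [mem_filter]
      refine ⟨mem_univ _, ?_, ?_⟩
      · show Function.update (Function.update s u a) w a u = a
        rw [Function.update_of_ne huw, Function.update_self]
      · show Function.update (Function.update s u a) w a w = a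
        rw [Function.update_self]
    · intro s _ s' _ h
      simp only [Prod.mk.injEq] at h
      obtain ⟨h1, h2, h3⟩ := h
      funext z
      by_cases hw : z = w
      · rw [hw]; exact h3
      · by_cases hu : z = u
        · rw [hu]; exact h2
        · have := congrFun h1 z
          rwa [Function.update_of_ne hw, Function.update_of_ne hu, Function.update_of_ne hw,
            Function.update_of_ne hu] at this
  rw [Finset.card_product, Finset.card_univ, Finset.card_univ, Fintype.card_prod] at h1
  rw [pow_two]
  exact h1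

lemma card_exact (N : Finset V) (u w : V) (hu : u ∈ N) (hw : w ∈ N) (huw : u ≠ w) (a : X)
    (D : ℕ) (hD : N.card ≤ D) :
    (Fintype.card (V → X) : ℝ) * ((1 / (Fintype.card X : ℝ)) ^ 2 *
      (1 - 1 / (Fintype.card X : ℝ)) ^ D) ≤
      ((univ.filter (fun s : V → X => N.filter (fun z => s z = a) = {u, w})).card : ℝ) := by
  have hX : 0 < Fintype.card X := Fintype.card_pos_iff.2 ⟨a⟩
  have hXr : (0 : ℝ) < Fintype.card X := by exact_mod_cast hX
  have hX1 : (1 : ℝ) ≤ Fintype.card X := by exact_mod_cast hX
  have h0 : 0 ≤ 1 - 1 / (Fintype.card X : ℝ) := by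
    rw [sub_nonneg, div_le_one hXr]; exact hX1
  set E := univ.filter (fun s : V → X => s u = a ∧ s w = a) with hE
  have h1 := avoid_real a ((N.erase u).erase w) D
    (((Finset.card_erase_le).trans Finset.card_erase_le).trans hD) E (by
      intro z hz s hs _ x
      rw [mem_erase, mem_erase] at hz
      rw [hE, mem_filter] at hs ⊢
      refine ⟨mem_univ _, ?_, ?_⟩
      · rw [Function.update_of_ne hz.2.1.symm]; exact hs.2.1
      · rw [Function.update_of_ne hz.1.symm]; exact hs.2.2)
  have h2 : E.filter (fun s => ∀ z ∈ (N.erase u).erase w, s z ≠ a) ⊆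
      univ.filter (fun s : V → X => N.filter (fun z => s z = a) = {u, w}) := by
    intro s hs
    rw [mem_filter, hE, mem_filter] at hs
    obtain ⟨⟨_, h3, h4⟩, h5⟩ := hs
    rw [mem_filter]
    refine ⟨mem_univ _, ?_⟩
    ext z
    rw [mem_filter, mem_insert, mem_singleton]
    constructor
    · rintro ⟨h6, h7⟩
      by_contra h8
      rw [not_or] at h8
      exact h5 z (mem_erase.2 ⟨h8.2, mem_erase.2 ⟨h8.1, h6⟩⟩) h7
    · rintro (rfl | rfl)
      · exact ⟨hu, h3⟩
      · exact ⟨hw, h4⟩
  have h3 : ((E.filter (fun s => ∀ z ∈ (N.erase u).erase w, s z ≠ a)).card : ℝ) ≤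
      ((univ.filter (fun s : V → X => N.filter (fun z => s z = a) = {u, w})).card : ℝ) := by
    exact_mod_cast Finset.card_le_card h2
  refine le_trans ?_ (h1.trans h3)
  have h4 : (Fintype.card (V → X) : ℝ) ≤ (E.card : ℝ) * (Fintype.card X : ℝ) ^ 2 := by
    exact_mod_cast card_two u w huw a
  have h5 : (Fintype.card (V → X) : ℝ) * (1 / (Fintype.card X : ℝ)) ^ 2 ≤ E.card := by
    rw [one_div, inv_pow, ← div_eq_mul_inv, div_le_iff₀ (by positivity)]
    exact h4
  calc (Fintype.card (V → X) : ℝ) * ((1 / (Fintype.card X : ℝ)) ^ 2 *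
      (1 - 1 / (Fintype.card X : ℝ)) ^ D)
      = (Fintype.card (V → X) : ℝ) * (1 / (Fintype.card X : ℝ)) ^ 2 *
      (1 - 1 / (Fintype.card X : ℝ)) ^ D := by ring
    _ ≤ _ := mul_le_mul_of_nonneg_right h5 (by positivity)

/-- the pairs with the same underlying set -/
lemma pair_count (N F : Finset V) :
    ((NA G N).filter (fun e => F = {e.1, e.2})).card ≤ 2 := by
  by_cases h : ∃ e ∈ NA G N, F = {e.1, e.2}
  · obtain ⟨e, he, hF⟩ := h
    have hsub : (NA G N).filter (fun e' => F = {e'.1, e'.2}) ⊆ {e, (e.2, e.1)} := by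
      intro e' he'
      rw [mem_filter] at he'
      have hne : e'.1 ≠ e'.2 := by
        have := he'.1
        unfold NA at this
        rw [mem_filter] at this
        exact this.2.1
      have h1 : ({e.1, e.2} : Finset V) = {e'.1, e'.2} := hF.symm.trans he'.2
      have h2 : e'.1 ∈ ({e.1, e.2} : Finset V) := by rw [h1]; simp
      have h3 : e'.2 ∈ ({e.1, e.2} : Finset V) := by rw [h1]; simp
      rw [mem_insert, mem_singleton] at h2 h3
      rw [mem_insert, mem_singleton]
      rcases h2 with h2 | h2 <;> rcases h3 with h3 | h3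
      · exact absurd (h2.trans h3.symm) hne
      · left; exact Prod.ext h2 h3
      · right; exact Prod.ext h2 h3
      · exact absurd (h2.trans h3.symm) hne
    exact (Finset.card_le_card hsub).trans Finset.card_le_two
  · push Not at h
    rw [Finset.filter_eq_empty_iff.2 (fun {e} he => h e he)]
    simp

lemma EP_mean (N : Finset V) (P : Finset X) (D : ℕ) (hD : N.card ≤ D) :
    ((NA G N).card : ℝ) * P.card * ((Fintype.card (V → X) : ℝ) *
      ((1 / (Fintype.card X : ℝ)) ^ 2 * (1 - 1 / (Fintype.card X : ℝ)) ^ D)) ≤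
      2 * ∑ s : V → X, ((EP G N P s).card : ℝ) := by
  have h1 : ∀ s : V → X, ∑ e ∈ NA G N,
      ((P.filter (fun a => N.filter (fun z => s z = a) = {e.1, e.2})).card : ℝ) ≤
      2 * ((EP G N P s).card : ℝ) := by
    intro s
    have h2 : ∀ e : V × V, ((P.filter (fun a => N.filter (fun z => s z = a) = {e.1, e.2})).card : ℝ)
        = ∑ a ∈ P, if N.filter (fun z => s z = a) = {e.1, e.2} then (1 : ℝ) else 0 := by
      intro e
      rw [← Finset.sum_filter, Finset.sum_const, nsmul_eq_mul, mul_one]
    simp only [h2]
    rw [Finset.sum_comm]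
    have h3 : ∀ a ∈ P, ∑ e ∈ NA G N,
        (if N.filter (fun z => s z = a) = {e.1, e.2} then (1 : ℝ) else 0) ≤
        if a ∈ EP G N P s then 2 else 0 := by
      intro a ha
      rw [← Finset.sum_filter, Finset.sum_const, nsmul_eq_mul, mul_one]
      split_ifs with h4
      · exact_mod_cast pair_count G N _
      · have h5 : (NA G N).filter (fun e => N.filter (fun z => s z = a) = {e.1, e.2}) = ∅ := by
          apply Finset.filter_eq_empty_iff.2
          intro e he h6
          apply h4
          unfold NA at he
          rw [mem_filter, mem_product] at he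
          unfold EP
          rw [mem_filter]
          exact ⟨ha, e.1, he.1.1, e.2, he.1.2, he.2.1, he.2.2, h6⟩
        rw [h5]; simp
    refine (Finset.sum_le_sum h3).trans ?_
    rw [← Finset.sum_filter, Finset.sum_const, nsmul_eq_mul, mul_comm]
    have h7 : P.filter (fun a => a ∈ EP G N P s) ⊆ EP G N P s := by
      intro a ha
      exact (mem_filter.1 ha).2
    have h8 : ((P.filter (fun a => a ∈ EP G N P s)).card : ℝ) ≤ ((EP G N P s).card : ℝ) := by
      exact_mod_cast Finset.card_le_card h7
    linarith
  rw [Finset.mul_sum]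
  refine le_trans ?_ (Finset.sum_le_sum (fun s _ => h1 s))
  rw [Finset.sum_comm]
  have h9 : ∀ e ∈ NA G N, (P.card : ℝ) * ((Fintype.card (V → X) : ℝ) *
      ((1 / (Fintype.card X : ℝ)) ^ 2 * (1 - 1 / (Fintype.card X : ℝ)) ^ D)) ≤
      ∑ s : V → X, ((P.filter (fun a => N.filter (fun z => s z = a) = {e.1, e.2})).card : ℝ) := by
    intro e he
    unfold NA at he
    rw [mem_filter, mem_product] at he
    have h2 : ∀ s : V → X,
        ((P.filter (fun a => N.filter (fun z => s z = a) = {e.1, e.2})).card : ℝ)
        = ∑ a ∈ P, if N.filter (fun z => s z = a) = {e.1, e.2} then (1 : ℝ) else 0 := by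
      intro s
      rw [← Finset.sum_filter, Finset.sum_const, nsmul_eq_mul, mul_one]
    simp only [h2]
    rw [Finset.sum_comm]
    have h10 : ∀ a ∈ P, (Fintype.card (V → X) : ℝ) *
      ((1 / (Fintype.card X : ℝ)) ^ 2 * (1 - 1 / (Fintype.card X : ℝ)) ^ D) ≤
      ∑ s : V → X, if N.filter (fun z => s z = a) = {e.1, e.2} then (1 : ℝ) else 0 := by
      intro a _
      rw [← Finset.sum_filter, Finset.sum_const, nsmul_eq_mul, mul_one]
      exact card_exact N e.1 e.2 he.1.1 he.1.2 he.2.1 a D hD
    have h11 := Finset.sum_le_sum h10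
    rwa [Finset.sum_const, nsmul_eq_mul] at h11
  have h12 := Finset.sum_le_sum h9
  rw [Finset.sum_const, nsmul_eq_mul] at h12
  refine le_trans (le_of_eq ?_) h12
  ring

/-- lower tail -/
lemma EP_tail (N : Finset V) (P : Finset X) (D : ℕ) (hD : N.card ≤ D) (hD0 : 0 < D)
    [Nonempty X] (a₀ t : ℝ) (ht : 0 ≤ t)
    (hmean : 2 * (a₀ + t) ≤ ((NA G N).card : ℝ) * P.card *
      ((1 / (Fintype.card X : ℝ)) ^ 2 * (1 - 1 / (Fintype.card X : ℝ)) ^ D)) :
    ((univ.filter (fun s : V → X => ((EP G N P s).card : ℝ) ≤ a₀)).card : ℝ) ≤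
      Real.exp (-(t ^ 2) / (8 * D)) * (Fintype.card (V → X) : ℝ) := by
  have hN : 0 < (Fintype.card (V → X) : ℝ) := by exact_mod_cast Fintype.card_pos
  have h := Pool.Agent.QCube.mcd_lower (fun s : V → X => ((EP G N P s).card : ℝ))
    (fun i => if i ∈ N then 2 else 0) (by intro i; split_ifs <;> norm_num)
    (by
      intro i s s' hs
      by_cases hi : i ∈ N
      · rw [if_pos hi, abs_le]
        have h1 : ((EP G N P s).card : ℝ) ≤ (EP G N P s').card + 2 := by
          exact_mod_cast EP_lip G i hs
        have h2 : ((EP G N P s').card : ℝ) ≤ (EP G N P s).card + 2 := by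
          exact_mod_cast EP_lip G i (fun y hy => (hs y hy).symm)
        constructor <;> linarith
      · rw [if_neg hi, EP_congr G (fun z hz => hs z (fun h => hi (h ▸ hz)))]
        simp) (4 * D) t (by
      have h1 : ∀ i : V, ((if i ∈ N then (2 : ℝ) else 0)) ^ 2 = if i ∈ N then 4 else 0 := by
        intro i; split_ifs <;> norm_num
      simp only [h1]
      rw [← Finset.sum_filter, Finset.sum_const, nsmul_eq_mul]
      have h2 : (univ.filter (fun i => i ∈ N)) = N := by ext; simp
      rw [h2]
      have : (N.card : ℝ) ≤ D := by exact_mod_cast hD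
      linarith) (by have : (0 : ℝ) < D := by exact_mod_cast hD0
                    positivity) ht
  have h3 := EP_mean G N P D hD
  have e : -(t ^ 2) / (8 * (D : ℝ)) = -(t ^ 2) / (2 * (4 * D)) := by ring
  rw [e]
  refine le_trans ?_ h
  have hsub : (univ.filter (fun s : V → X => ((EP G N P s).card : ℝ) ≤ a₀)) ⊆
      (univ.filter (fun s : V → X => ((EP G N P s).card : ℝ) ≤
        (∑ s' : V → X, ((EP G N P s').card : ℝ)) / (Fintype.card (V → X) : ℝ) - t)) := by
    intro s hs
    rw [mem_filter] at hs ⊢
    refine ⟨mem_univ _, hs.2.trans ?_⟩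
    rw [le_sub_iff_add_le, le_div_iff₀ hN]
    have h4 := mul_le_mul_of_nonneg_right hmean hN.le
    nlinarith
  exact_mod_cast Finset.card_le_card hsub

end Pool.Agent.TH104.LS
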