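import Mathlib
import Pool.Agent.TH104.LS.B

set_option autoImplicit false

/-!
# The number of colours kept on two vertices of a neighbourhood
-/

namespace Pool.Agent.TH104.LS

open Finset

variable {V X : Type} [Fintype V] [DecidableEq V] [Fintype X] [DecidableEq X]
  (G : SimpleGraph V) [DecidableRel G.Adj]

/-- the colours of `P` kept on two different vertices of `N` -/
def GD (N : Finset V) (P : Finset X) (s : V → X) : Finset X :=
  P.filter (fun a => ∃ u ∈ N, ∃ w ∈ N, u ≠ w ∧ s u = a ∧ s w = a ∧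
    (∀ z, G.Adj u z → s z ≠ a) ∧ (∀ z, G.Adj w z → s z ≠ a))

/-- the outside neighbours of the vertices of `N` with value `a` -/
def ZZ (N : Finset V) (τ : V → X) (a : X) : Finset V :=
  ((N.filter (fun u => τ u = a)).biUnion (fun u => G.neighborFinset u)) \ N

lemma ZZ_card (N : Finset V) (P : Finset X) (D : ℕ) (hdeg : ∀ v, G.degree v ≤ D)
    (τ : V → X) (a : X) (ha : a ∈ EP G N P τ) : (ZZ G N τ a).card ≤ 2 * D := by
  unfold EP at ha
  rw [mem_filter] at ha
  obtain ⟨_, u, hu, w, hw, h1, h2, h3⟩ := ha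
  unfold ZZ
  rw [h3]
  refine (Finset.card_le_card Finset.sdiff_subset).trans (Finset.card_biUnion_le.trans ?_)
  have h4 : ∑ z ∈ ({u, w} : Finset V), (G.neighborFinset z).card ≤
      ∑ _z ∈ ({u, w} : Finset V), D := by
    apply Finset.sum_le_sum
    intro z _
    rw [SimpleGraph.card_neighborFinset_eq_degree]
    exact hdeg z
  refine h4.trans ?_
  rw [Finset.sum_const, smul_eq_mul]
  exact Nat.mul_le_mul_right _ Finset.card_le_two

lemma not_hit (N : Finset V) (P : Finset X) (τ s : V → X) (h : ∀ z ∈ N, s z = τ z) (a : X)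
    (ha : a ∈ EP G N P τ) (hZ : ∀ z ∈ ZZ G N τ a, s z ≠ a) : a ∈ GD G N P s := by
  unfold EP at ha
  rw [mem_filter] at ha
  obtain ⟨haP, u, hu, w, hw, h1, h2, h3⟩ := ha
  have hτu : τ u = a := by
    have : u ∈ N.filter (fun z => τ z = a) := by rw [h3]; simp
    exact (mem_filter.1 this).2
  have hτw : τ w = a := by
    have : w ∈ N.filter (fun z => τ z = a) := by rw [h3]; simp
    exact (mem_filter.1 this).2
  have key : ∀ y ∈ N, τ y = a → (∀ y' ∈ ({u, w} : Finset V), ¬ G.Adj y y') →
      ∀ z, G.Adj y z → s z ≠ a := by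
    intro y hy hya hadj z hz hsz
    by_cases hzN : z ∈ N
    · have h4 : z ∈ N.filter (fun z => τ z = a) := mem_filter.2 ⟨hzN, by rw [← h z hzN]; exact hsz⟩
      rw [h3] at h4
      exact hadj z h4 hz
    · apply hZ z _ hsz
      unfold ZZ
      rw [mem_sdiff, mem_biUnion]
      refine ⟨⟨y, mem_filter.2 ⟨hy, hya⟩, ?_⟩, hzN⟩
      rw [SimpleGraph.mem_neighborFinset]
      exact hz
  unfold GD
  rw [mem_filter]
  refine ⟨haP, u, hu, w, hw, h1, by rw [h u hu]; exact hτu, by rw [h w hw]; exact hτw, ?_, ?_⟩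
  · apply key u hu hτu
    intro y' hy'
    rw [mem_insert, mem_singleton] at hy'
    rcases hy' with rfl | rfl
    · exact G.irrefl
    · exact h2
  · apply key w hw hτw
    intro y' hy'
    rw [mem_insert, mem_singleton] at hy'
    rcases hy' with rfl | rfl
    · exact fun h => h2 h.symm
    · exact G.irrefl

lemma fibre_bound (N : Finset V) (P : Finset X) (D g : ℕ) (hdeg : ∀ v, G.degree v ≤ D)
    [Nonempty X] (τ : V → X) (η : ℝ)
    (hη0 : 0 ≤ η) (hη : η ≤ (1 - 1 / (Fintype.card X : ℝ)) ^ (2 * D))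
    (hg : 4 * (g : ℝ) ≤ η * (EP G N P τ).card) :
    ((univ.filter (fun s : V → X => (∀ z ∈ N, s z = τ z) ∧ (GD G N P s).card < g)).card : ℝ) ≤
      Real.exp (-(η * (EP G N P τ).card / 4)) *
        ((univ.filter (fun s : V → X => ∀ z ∈ N, s z = τ z)).card : ℝ) := by
  classical
  have hX : 0 < Fintype.card X := Fintype.card_pos
  have hXr : (0 : ℝ) < Fintype.card X := by exact_mod_cast hX
  have hX1 : (1 : ℝ) ≤ Fintype.card X := by exact_mod_cast hX
  have h0 : 0 ≤ 1 - 1 / (Fintype.card X : ℝ) := by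
    rw [sub_nonneg, div_le_one hXr]; exact hX1
  have h01 : 1 - 1 / (Fintype.card X : ℝ) ≤ 1 := by
    have : 0 ≤ 1 / (Fintype.card X : ℝ) := by positivity
    linarith
  have hη1 : (1 - 1 / (Fintype.card X : ℝ)) ^ (2 * D) ≤ 1 := pow_le_one₀ h0 h01
  obtain ⟨C, hC⟩ : ∃ C, C = EP G N P τ := ⟨_, rfl⟩
  rw [← hC] at hg ⊢
  obtain ⟨E, hE⟩ : ∃ E, E = univ.filter (fun s : V → X => ∀ z ∈ N, s z = τ z) := ⟨_, rfl⟩
  rw [← hE]
  have hgC : g ≤ C.card := by
    have h1 : (0 : ℝ) ≤ C.card := by positivity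
    have h2 : η * (C.card : ℝ) ≤ 1 * C.card := mul_le_mul_of_nonneg_right (hη.trans hη1) h1
    have h3 : (g : ℝ) ≤ C.card := by
      have : (0 : ℝ) ≤ g := by positivity
      linarith
    exact_mod_cast h3
  have hm := many_hit (2 * D) (fun a => ZZ G N τ a) E C
    (by
      intro a ha
      rw [hC] at ha
      exact ZZ_card G N P D hdeg τ a ha)
    (by
      intro a _ z hz s hs x
      rw [hE, mem_filter] at hs ⊢
      refine ⟨mem_univ _, ?_⟩
      intro y hy
      have hyz : y ≠ z := by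
        rintro rfl
        unfold ZZ at hz
        exact (mem_sdiff.1 hz).2 hy
      rw [Function.update_of_ne hyz]
      exact hs.2 y hy) (C.card - g)
  have hsub : univ.filter (fun s : V → X => (∀ z ∈ N, s z = τ z) ∧ (GD G N P s).card < g) ⊆
      E.filter (fun s => C.card - g ≤ (C.filter (fun a => ∃ z ∈ ZZ G N τ a, s z = a)).card) := by
    intro s hs
    rw [mem_filter] at hs
    obtain ⟨_, hs1, hs2⟩ := hs
    rw [mem_filter, hE, mem_filter]
    refine ⟨⟨mem_univ _, hs1⟩, ?_⟩
    have h1 : C ⊆ C.filter (fun a => ∃ z ∈ ZZ G N τ a, s z = a) ∪ GD G N P s := by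
      intro a ha
      rw [mem_union, mem_filter]
      by_cases h : ∃ z ∈ ZZ G N τ a, s z = a
      · left; exact ⟨ha, h⟩
      · right
        push Not at h
        rw [hC] at ha
        exact not_hit G N P τ s hs1 a ha h
    have h2 := (Finset.card_le_card h1).trans (Finset.card_union_le _ _)
    omega
  have hle : ((univ.filter (fun s : V → X => (∀ z ∈ N, s z = τ z) ∧
      (GD G N P s).card < g)).card : ℝ) ≤
      ((E.filter (fun s => C.card - g ≤ (C.filter (fun a => ∃ z ∈ ZZ G N τ a, s z = a)).card)).card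
        : ℝ) := by
    exact_mod_cast Finset.card_le_card hsub
  refine hle.trans ?_
  obtain ⟨b, hb⟩ : ∃ b, b = E.filter (fun s => C.card - g ≤
    (C.filter (fun a => ∃ z ∈ ZZ G N τ a, s z = a)).card) := ⟨_, rfl⟩
  rw [← hb] at hm ⊢
  -- arithmetic
  have hpow : (1 + (1 - (1 - 1 / (Fintype.card X : ℝ)) ^ (2 * D))) ^ C.card ≤
      (2 : ℝ) ^ C.card * Real.exp (-(η * C.card / 2)) := by
    have h1 : 1 + (1 - (1 - 1 / (Fintype.card X : ℝ)) ^ (2 * D)) ≤ 2 * Real.exp (-(η / 2)) := by
      have := Real.add_one_le_exp (-(η / 2))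
      linarith
    have h2 : 0 ≤ 1 + (1 - (1 - 1 / (Fintype.card X : ℝ)) ^ (2 * D)) := by linarith
    refine (pow_le_pow_left₀ h2 h1 _).trans (le_of_eq ?_)
    rw [mul_pow, ← Real.exp_nat_mul]
    congr 2
    ring
  have h2g : (2 : ℝ) ^ g ≤ Real.exp g := by
    have h1 : (2 : ℝ) ≤ Real.exp 1 := by
      have := Real.add_one_le_exp (1 : ℝ)
      linarith
    calc (2 : ℝ) ^ g ≤ (Real.exp 1) ^ g := pow_le_pow_left₀ (by norm_num) h1 _
      _ = Real.exp g := by rw [← Real.exp_nat_mul, mul_one]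
  have hE0 : (0 : ℝ) ≤ E.card := by positivity
  have h3 : (b.card : ℝ) * 2 ^ C.card ≤
      ((2 : ℝ) ^ C.card * Real.exp (-(η * C.card / 2))) * E.card * Real.exp g := by
    have h4 : (2 : ℝ) ^ C.card = 2 ^ (C.card - g) * 2 ^ g := by
      rw [← pow_add]; congr 1; omega
    calc (b.card : ℝ) * 2 ^ C.card = (b.card * 2 ^ (C.card - g)) * 2 ^ g := by rw [h4]; ring
      _ ≤ ((2 : ℝ) ^ C.card * Real.exp (-(η * C.card / 2)) * E.card) * Real.exp g := by
          apply mul_le_mul _ h2g (by positivity) (by positivity)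
          exact hm.trans (mul_le_mul_of_nonneg_right hpow hE0)
  have h5 : Real.exp (-(η * C.card / 2)) * Real.exp g ≤ Real.exp (-(η * C.card / 4)) := by
    rw [← Real.exp_add]
    apply Real.exp_le_exp.2
    linarith
  have h6 : (b.card : ℝ) * 2 ^ C.card ≤
      (Real.exp (-(η * C.card / 4)) * E.card) * 2 ^ C.card := by
    refine h3.trans ?_
    calc ((2 : ℝ) ^ C.card * Real.exp (-(η * C.card / 2))) * E.card * Real.exp g
        = (Real.exp (-(η * C.card / 2)) * Real.exp g) * (E.card * 2 ^ C.card) := by ring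
      _ ≤ Real.exp (-(η * C.card / 4)) * (E.card * 2 ^ C.card) :=
          mul_le_mul_of_nonneg_right h5 (by positivity)
      _ = _ := by ring
  exact le_of_mul_le_mul_right h6 (by positivity)

/-- the total bound -/
lemma GD_tail (N : Finset V) (P : Finset X) (D g : ℕ) (hdeg : ∀ v, G.degree v ≤ D)
    (hN : N.card ≤ D) (hD0 : 0 < D)
    [Nonempty X] (η a₀ t : ℝ) (ht : 0 ≤ t)
    (hη0 : 0 ≤ η) (hη : η ≤ (1 - 1 / (Fintype.card X : ℝ)) ^ (2 * D))
    (hmean : 2 * (a₀ + t) ≤ ((NA G N).card : ℝ) * P.card *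
      ((1 / (Fintype.card X : ℝ)) ^ 2 * (1 - 1 / (Fintype.card X : ℝ)) ^ D))
    (hg : 4 * (g : ℝ) ≤ η * a₀) :
    ((univ.filter (fun s : V → X => (GD G N P s).card < g)).card : ℝ) ≤
      (Real.exp (-(t ^ 2) / (8 * D)) + Real.exp (-(η * a₀ / 4))) *
        (Fintype.card (V → X) : ℝ) := by
  classical
  have h1 := EP_tail G N P D hN hD0 a₀ t ht hmean
  obtain ⟨x₀⟩ := ‹Nonempty X›
  obtain ⟨A, hA⟩ : ∃ A, A = univ.filter (fun s : V → X => ¬ (((EP G N P s).card : ℝ) ≤ a₀) ∧
    (GD G N P s).card < g) := ⟨_, rfl⟩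
  have hsplit : ((univ.filter (fun s : V → X => (GD G N P s).card < g)).card : ℝ) ≤
      ((univ.filter (fun s : V → X => ((EP G N P s).card : ℝ) ≤ a₀)).card : ℝ) + (A.card : ℝ) := by
    have : univ.filter (fun s : V → X => (GD G N P s).card < g) ⊆
        univ.filter (fun s : V → X => ((EP G N P s).card : ℝ) ≤ a₀) ∪ A := by
      intro s hs
      rw [mem_filter] at hs
      rw [mem_union, hA, mem_filter, mem_filter]
      by_cases h : ((EP G N P s).card : ℝ) ≤ a₀
      · left; exact ⟨mem_univ _, h⟩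
      · right; exact ⟨mem_univ _, h, hs.2⟩
    have h2 := (Finset.card_le_card this).trans (Finset.card_union_le _ _)
    exact_mod_cast h2
  have hA2 : (A.card : ℝ) ≤ Real.exp (-(η * a₀ / 4)) * (Fintype.card (V → X) : ℝ) := by
    obtain ⟨ρ, hρ⟩ : ∃ ρ : (V → X) → (V → X), ρ = fun s z => if z ∈ N then s z else x₀ := ⟨_, rfl⟩
    have hρ2 : ∀ s τ : V → X, ρ s = ρ τ ↔ ∀ z ∈ N, s z = τ z := by
      intro s τ
      rw [hρ]
      constructor
      · intro h z hz
        have := congrFun h z
        simpa [hz] using this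
      · intro h
        funext z
        by_cases hz : z ∈ N
        · simp [hz, h z hz]
        · simp [hz]
    have hc1 : A.card = ∑ r : V → X, (A.filter (fun s => ρ s = r)).card :=
      Finset.card_eq_sum_card_fiberwise (fun s _ => mem_univ _)
    have hc2 : Fintype.card (V → X) =
        ∑ r : V → X, (univ.filter (fun s : V → X => ρ s = r)).card := by
      rw [← Finset.card_univ]
      exact Finset.card_eq_sum_card_fiberwise (fun s _ => mem_univ _)
    rw [hc1, hc2]
    push_cast
    rw [Finset.mul_sum]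
    apply Finset.sum_le_sum
    intro r _
    by_cases hne : (A.filter (fun s => ρ s = r)).Nonempty
    · obtain ⟨τ, hτ⟩ := hne
      rw [mem_filter, hA, mem_filter] at hτ
      obtain ⟨⟨_, hτ1, _⟩, hτ3⟩ := hτ
      rw [not_le] at hτ1
      have : Nonempty X := ⟨x₀⟩
      have hg2 : 4 * (g : ℝ) ≤ η * (EP G N P τ).card :=
        hg.trans (mul_le_mul_of_nonneg_left hτ1.le hη0)
      have hf := fibre_bound G N P D g hdeg τ η hη0 hη hg2
      have e1 : univ.filter (fun s : V → X => ρ s = r) =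
          univ.filter (fun s : V → X => ∀ z ∈ N, s z = τ z) := by
        apply Finset.filter_congr
        intro s _
        rw [← hτ3, hρ2]
      have e2 : A.filter (fun s => ρ s = r) ⊆
          univ.filter (fun s : V → X => (∀ z ∈ N, s z = τ z) ∧ (GD G N P s).card < g) := by
        intro s hs
        rw [mem_filter, hA, mem_filter] at hs
        rw [mem_filter]
        refine ⟨mem_univ _, ?_, hs.1.2.2⟩
        rw [← hρ2, hs.2, hτ3]
      rw [e1]
      have e3 : ((A.filter (fun s => ρ s = r)).card : ℝ) ≤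
          ((univ.filter (fun s : V → X => (∀ z ∈ N, s z = τ z) ∧
            (GD G N P s).card < g)).card : ℝ) := by
        exact_mod_cast Finset.card_le_card e2
      refine e3.trans (hf.trans ?_)
      apply mul_le_mul_of_nonneg_right _ (by positivity)
      apply Real.exp_le_exp.2
      have := mul_le_mul_of_nonneg_left hτ1.le hη0
      linarith
    · rw [Finset.not_nonempty_iff_eq_empty] at hne
      rw [hne]
      simp only [Finset.card_empty, Nat.cast_zero]
      positivity
  rw [add_mul]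
  linarith

end Pool.Agent.TH104.LS
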