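import Mathlib
import Pool.Agent.H238R2.HY.Part
import Pool.Agent.TH104.LS.C

set_option autoImplicit false

/-!
# Types with economical colourings
-/

namespace Pool.Agent.TH104.LS

open Finset Pool.Agent.Helper635.LLL Pool.Agent.H238R2.HY

/-- Chernoff for the first coordinate -/
lemma tail2 {V : Type} [Fintype V] [DecidableEq V] (K Q D : ℕ) (hK : 1 ≤ K) (S : Finset V)
    (hS : S.card ≤ D)
    (y : Fin K) (x : ℝ) (hx : 0 ≤ x) (hx1 : x ≤ 1) (m : ℕ) (hm : (1 + x) * D / K ≤ m) :
    ((univ.filter (fun s : V → Fin K × Fin Q => m ≤ (S.filter (fun u => (s u).1 = y)).card)).card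
      : ℝ) ≤
      Real.exp (-(x ^ 2 * D / (3 * K))) * Fintype.card (V → Fin K × Fin Q) := by
  have h1 : (cnt (fun ω : V → Fin K => m ≤ (S.filter (fun u => ω u = y)).card) : ℝ) ≤
      Real.exp (-(x ^ 2 * D / (3 * K))) * (Fintype.card (V → Fin K) : ℝ) := by
    convert tail K D hK S hS y x hx hx1 m hm
  have h2 : (univ.filter (fun s : V → Fin K × Fin Q =>
      m ≤ (S.filter (fun u => (s u).1 = y)).card)).card ≤
      ((ev (fun ω : V → Fin K => m ≤ (S.filter (fun u => ω u = y)).card)) ×ˢ
        (univ : Finset (V → Fin Q))).card := by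
    apply Finset.card_le_card_of_injOn (fun s => (fun u => (s u).1, fun u => (s u).2))
    · intro s hs
      rw [mem_coe, mem_filter] at hs
      rw [mem_coe, mem_product]
      exact ⟨mem_ev.2 hs.2, mem_univ _⟩
    · intro s _ s' _ h
      simp only [Prod.mk.injEq] at h
      funext u
      exact Prod.ext (congrFun h.1 u) (congrFun h.2 u)
  rw [Finset.card_product, Finset.card_univ] at h2
  have h3 : (Fintype.card (V → Fin K × Fin Q) : ℝ) =
      (Fintype.card (V → Fin K) : ℝ) * (Fintype.card (V → Fin Q) : ℝ) := by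
    rw [Fintype.card_fun, Fintype.card_fun, Fintype.card_fun, Fintype.card_prod, mul_pow]
    push_cast
    ring
  have h4 : ((univ.filter (fun s : V → Fin K × Fin Q =>
      m ≤ (S.filter (fun u => (s u).1 = y)).card)).card : ℝ) ≤
      (cnt (fun ω : V → Fin K => m ≤ (S.filter (fun u => ω u = y)).card) : ℝ) *
        (Fintype.card (V → Fin Q) : ℝ) := by exact_mod_cast h2
  refine h4.trans ?_
  rw [h3, ← mul_assoc]
  exact mul_le_mul_of_nonneg_right h1 (by positivity)

/-- the vertices at distance one or two -/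
def S2 {V : Type} [Fintype V] [DecidableEq V] (G : SimpleGraph V) [DecidableRel G.Adj] (v : V) :
    Finset V :=
  G.neighborFinset v ∪ (G.neighborFinset v).biUnion (fun u => G.neighborFinset u)

lemma S2_symm {V : Type} [Fintype V] [DecidableEq V] (G : SimpleGraph V) [DecidableRel G.Adj]
    (u v : V) (h : u ∈ S2 G v) : v ∈ S2 G u := by
  unfold S2 at h ⊢
  rw [mem_union, mem_biUnion] at h ⊢
  rcases h with h | ⟨z, hz1, hz2⟩
  · left
    rw [SimpleGraph.mem_neighborFinset] at h ⊢
    exact h.symm
  · right
    rw [SimpleGraph.mem_neighborFinset] at hz1 hz2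
    exact ⟨z, by rw [SimpleGraph.mem_neighborFinset]; exact hz2.symm,
      by rw [SimpleGraph.mem_neighborFinset]; exact hz1.symm⟩

lemma S2_card {V : Type} [Fintype V] [DecidableEq V] (G : SimpleGraph V) [DecidableRel G.Adj]
    (D : ℕ) (hD1 : 1 ≤ D) (hD : ∀ v, G.degree v ≤ D) (v : V) : (S2 G v).card ≤ 2 * D ^ 2 := by
  unfold S2
  refine (Finset.card_union_le _ _).trans ?_
  have h1 : (G.neighborFinset v).card ≤ D := by
    rw [SimpleGraph.card_neighborFinset_eq_degree]; exact hD v
  have h2 : ((G.neighborFinset v).biUnion (fun u => G.neighborFinset u)).card ≤ D * D := by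
    refine Finset.card_biUnion_le.trans ?_
    have hs : ∑ u ∈ G.neighborFinset v, (G.neighborFinset u).card ≤
        ∑ _u ∈ G.neighborFinset v, D :=
      Finset.sum_le_sum (fun u _ => by
        rw [SimpleGraph.card_neighborFinset_eq_degree]; exact hD u)
    refine hs.trans ?_
    rw [Finset.sum_const, smul_eq_mul]
    exact Nat.mul_le_mul_right _ h1
  nlinarith

lemma S2_dep {V : Type} [Fintype V] [DecidableEq V] (G : SimpleGraph V) [DecidableRel G.Adj]
    (D : ℕ) (hD1 : 1 ≤ D) (hD : ∀ v, G.degree v ≤ D) (v : V) :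
    (univ.filter (fun j => ¬ Disjoint (S2 G v) (S2 G j))).card ≤ 4 * D ^ 4 := by
  have hsub : univ.filter (fun j => ¬ Disjoint (S2 G v) (S2 G j)) ⊆
      (S2 G v).biUnion (fun u => S2 G u) := by
    intro j hj
    rw [mem_filter, Finset.not_disjoint_iff] at hj
    obtain ⟨u, hu1, hu2⟩ := hj.2
    rw [mem_biUnion]
    exact ⟨u, hu1, S2_symm G u j hu2⟩
  refine (Finset.card_le_card hsub).trans (Finset.card_biUnion_le.trans ?_)
  have hs : ∑ u ∈ S2 G v, (S2 G u).card ≤ ∑ _u ∈ S2 G v, 2 * D ^ 2 :=
    Finset.sum_le_sum (fun u _ => S2_card G D hD1 hD u)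
  refine hs.trans ?_
  rw [Finset.sum_const, smul_eq_mul]
  calc (S2 G v).card * (2 * D ^ 2) ≤ (2 * D ^ 2) * (2 * D ^ 2) :=
        Nat.mul_le_mul_right _ (S2_card G D hD1 hD v)
    _ = 4 * D ^ 4 := by ring

/-- the palette of the type `y` -/
def Pal (K Q : ℕ) (y : Fin K) : Finset (Fin K × Fin Q) := univ.filter (fun a => a.1 = y)

lemma Pal_card (K Q : ℕ) (y : Fin K) : (Pal K Q y).card = Q := by
  have : Pal K Q y = ({y} : Finset (Fin K)) ×ˢ (univ : Finset (Fin Q)) := by
    ext a
    unfold Pal
    rw [mem_filter, mem_product, mem_singleton]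
    simp
  rw [this, Finset.card_product, Finset.card_singleton, Finset.card_univ, Fintype.card_fin,
    one_mul]

/-- few colours on a class of the neighbourhood -/
lemma image_bound {V : Type} [Fintype V] [DecidableEq V] (G : SimpleGraph V) [DecidableRel G.Adj]
    (K Q : ℕ) (s : V → Fin K × Fin Q) (N : Finset V) (y : Fin K) (c : V → ℕ)
    (hc : ∀ v, (∀ z, G.Adj v z → s z ≠ s v) → c v = ((s v).2 : ℕ)) :
    ((N.filter (fun u => (s u).1 = y)).image c).card + (GD G N (Pal K Q y) s).card ≤
      (N.filter (fun u => (s u).1 = y)).card := by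
  obtain ⟨M, hM⟩ : ∃ M, M = N.filter (fun u => (s u).1 = y) := ⟨_, rfl⟩
  rw [← hM]
  obtain ⟨H, hH⟩ : ∃ H, H = (GD G N (Pal K Q y) s).image (fun a => (a.2 : ℕ)) := ⟨_, rfl⟩
  have hHc : H.card = (GD G N (Pal K Q y) s).card := by
    rw [hH]
    apply Finset.card_image_of_injOn
    intro a ha b hb hab
    rw [mem_coe] at ha hb
    unfold GD at ha hb
    have h1 := (mem_filter.1 ha).1
    have h2 := (mem_filter.1 hb).1
    unfold Pal at h1 h2
    rw [mem_filter] at h1 h2
    exact Prod.ext (h1.2.trans h2.2.symm) (Fin.ext hab)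
  have hpair : ∀ b ∈ H, ∃ u ∈ M, ∃ w ∈ M, u ≠ w ∧ c u = b ∧ c w = b := by
    intro b hb
    rw [hH, mem_image] at hb
    obtain ⟨a, ha, hab⟩ := hb
    unfold GD at ha
    rw [mem_filter] at ha
    obtain ⟨haP, u, hu, w, hw, h1, h2, h3, h4, h5⟩ := ha
    unfold Pal at haP
    rw [mem_filter] at haP
    refine ⟨u, ?_, w, ?_, h1, ?_, ?_⟩
    · rw [hM, mem_filter]; exact ⟨hu, by rw [h2]; exact haP.2⟩
    · rw [hM, mem_filter]; exact ⟨hw, by rw [h3]; exact haP.2⟩
    · rw [hc u (fun z hz => by rw [h2]; exact h4 z hz), h2]; exact hab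
    · rw [hc w (fun z hz => by rw [h3]; exact h5 z hz), h3]; exact hab
  have hsub : H ⊆ M.image c := by
    intro b hb
    obtain ⟨u, hu, _, _, _, h1, _⟩ := hpair b hb
    exact mem_image.2 ⟨u, hu, h1⟩
  have h1 : M.card = ∑ b ∈ M.image c, (M.filter (fun u => c u = b)).card :=
    Finset.card_eq_sum_card_image c M
  have h2 : ∑ b ∈ M.image c, (1 + if b ∈ H then 1 else 0) ≤
      ∑ b ∈ M.image c, (M.filter (fun u => c u = b)).card := by
    apply Finset.sum_le_sum
    intro b hb
    split_ifs with h
    · obtain ⟨u, hu, w, hw, h3, h4, h5⟩ := hpair b h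
      have h6 : ({u, w} : Finset V) ⊆ M.filter (fun u => c u = b) := by
        intro z hz
        rw [mem_insert, mem_singleton] at hz
        rw [mem_filter]
        rcases hz with rfl | rfl
        · exact ⟨hu, h4⟩
        · exact ⟨hw, h5⟩
      have h7 := Finset.card_le_card h6
      rwa [Finset.card_pair h3] at h7
    · rw [mem_image] at hb
      obtain ⟨u, hu, h3⟩ := hb
      have : 0 < (M.filter (fun u => c u = b)).card := Finset.card_pos.2 ⟨u, mem_filter.2 ⟨hu, h3⟩⟩
      omega
  rw [Finset.sum_add_distrib, ← h1, Finset.sum_const, smul_eq_mul, mul_one,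
    ← Finset.sum_filter, Finset.sum_const, smul_eq_mul, mul_one] at h2
  have h3 : (M.image c).filter (fun b => b ∈ H) = H := by
    ext b
    rw [mem_filter]
    exact ⟨fun h => h.2, fun h => ⟨hsub h, h⟩⟩
  rw [h3, hHc] at h2
  exact h2

/-- greedy completion -/
lemma completion {V : Type} [Fintype V] [DecidableEq V] (G : SimpleGraph V) [DecidableRel G.Adj]
    (K Q k : ℕ) (hQk : Q ≤ k) (s : V → Fin K × Fin Q)
    (hgood : ∀ v (y : Fin K), ((G.neighborFinset v).filter (fun u => (s u).1 = y)).card <
      k + (GD G (G.neighborFinset v) (Pal K Q y) s).card) :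
    ∃ c : V → ℕ, (∀ v, c v < k) ∧ ∀ u v, G.Adj u v → (s u).1 = (s v).1 → c u ≠ c v := by
  have key : ∀ U : Finset V, (∀ v ∈ U, ¬ (∀ z, G.Adj v z → s z ≠ s v)) →
      ∃ c : V → ℕ, (∀ v, c v < k) ∧ (∀ v, (∀ z, G.Adj v z → s z ≠ s v) → c v = ((s v).2 : ℕ)) ∧
      ∀ u v, ((∀ z, G.Adj u z → s z ≠ s u) ∨ u ∈ U) → ((∀ z, G.Adj v z → s z ≠ s v) ∨ v ∈ U) →
        G.Adj u v → (s u).1 = (s v).1 → c u ≠ c v := by
    intro U
    induction U using Finset.induction_on with
    | empty =>
      intro _
      refine ⟨fun v => ((s v).2 : ℕ), fun v => lt_of_lt_of_le (s v).2.2 hQk, fun _ _ => rfl, ?_⟩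
      intro u v hu hv huv ht hc
      have h1 : ∀ z, G.Adj u z → s z ≠ s u := by
        rcases hu with h | h
        · exact h
        · simp at h
      exact h1 v huv (Prod.ext ht.symm (Fin.ext hc.symm))
    | insert x U hx ih =>
      intro hU
      obtain ⟨c, hc1, hc2, hc3⟩ := ih (fun v hv => hU v (mem_insert_of_mem hv))
      have hxR := hU x (mem_insert_self _ _)
      have hb := image_bound G K Q s (G.neighborFinset x) (s x).1 c hc2
      have hg := hgood x (s x).1
      have hcard : (((G.neighborFinset x).filter (fun u => (s u).1 = (s x).1)).image c).card <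
          (range k).card := by
        rw [card_range]; omega
      obtain ⟨a, ha1, ha2⟩ := Finset.exists_mem_notMem_of_card_lt_card hcard
      rw [mem_range] at ha1
      have hmain : ∀ u, G.Adj x u → (s u).1 = (s x).1 → c u ≠ a := by
        intro u hu hs h
        exact ha2 (mem_image.2 ⟨u, mem_filter.2 ⟨by
          rw [SimpleGraph.mem_neighborFinset]; exact hu, hs⟩, h⟩)
      refine ⟨Function.update c x a, ?_, ?_, ?_⟩
      · intro v
        by_cases h : v = x
        · subst h; rw [Function.update_self]; exact ha1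
        · rw [Function.update_of_ne h]; exact hc1 v
      · intro v hv
        have h : v ≠ x := by rintro rfl; exact hxR hv
        rw [Function.update_of_ne h]
        exact hc2 v hv
      · intro u v hu hv huv ht
        by_cases hux : u = x
        · have hvx : v ≠ x := by rintro rfl; exact G.ne_of_adj huv hux
          rw [hux, Function.update_self, Function.update_of_ne hvx]
          exact (hmain v (hux ▸ huv) (hux ▸ ht.symm)).symm
        · by_cases hvx : v = x
          · rw [hvx, Function.update_self, Function.update_of_ne hux]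
            exact hmain u (hvx ▸ huv.symm) (hvx ▸ ht)
          · rw [Function.update_of_ne hux, Function.update_of_ne hvx]
            refine hc3 u v ?_ ?_ huv ht
            · rcases hu with h | h
              · left; exact h
              · right; exact (mem_insert.1 h).resolve_left hux
            · rcases hv with h | h
              · left; exact h
              · right; exact (mem_insert.1 h).resolve_left hvx
  obtain ⟨c, hc1, _, hc3⟩ := key (univ.filter (fun v => ¬ (∀ z, G.Adj v z → s z ≠ s v)))
    (fun v hv => (mem_filter.1 hv).2)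
  refine ⟨c, hc1, fun u v => hc3 u v ?_ ?_⟩
  · by_cases h : ∀ z, G.Adj u z → s z ≠ s u
    · left; exact h
    · right; exact mem_filter.2 ⟨mem_univ _, h⟩
  · by_cases h : ∀ z, G.Adj v z → s z ≠ s v
    · left; exact h
    · right; exact mem_filter.2 ⟨mem_univ _, h⟩

lemma cnt_eq {T C : Type} [Fintype T] [Fintype C] [DecidableEq T] (P : (T → C) → Prop)
    [DecidablePred P] : cnt P = (univ.filter (fun s : T → C => P s)).card := by
  unfold cnt
  apply Finset.card_bij (fun s _ => s)
  · intro s hs
    rw [mem_filter]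
    exact ⟨mem_univ _, mem_ev.1 hs⟩
  · intro s _ s' _ h
    exact h
  · intro s hs
    exact ⟨s, mem_ev.2 (mem_filter.1 hs).2, rfl⟩

lemma GD_congr {V X : Type} [Fintype V] [DecidableEq V] [Fintype X] [DecidableEq X]
    (G : SimpleGraph V) [DecidableRel G.Adj] (v : V) (P : Finset X) (s s' : V → X)
    (h : ∀ u ∈ S2 G v, s u = s' u) :
    GD G (G.neighborFinset v) P s = GD G (G.neighborFinset v) P s' := by
  have h1 : ∀ u ∈ G.neighborFinset v, s u = s' u := by
    intro u hu
    exact h u (by unfold S2; rw [mem_union]; left; exact hu)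
  have h2 : ∀ u ∈ G.neighborFinset v, ∀ z, G.Adj u z → s z = s' z := by
    intro u hu z hz
    apply h z
    unfold S2
    rw [mem_union, mem_biUnion]
    right
    exact ⟨u, hu, by rw [SimpleGraph.mem_neighborFinset]; exact hz⟩
  unfold GD
  apply Finset.filter_congr
  intro a _
  constructor
  · rintro ⟨u, hu, w, hw, h3, h4, h5, h6, h7⟩
    exact ⟨u, hu, w, hw, h3, by rw [← h1 u hu]; exact h4, by rw [← h1 w hw]; exact h5,
      fun z hz => by rw [← h2 u hu z hz]; exact h6 z hz,
      fun z hz => by rw [← h2 w hw z hz]; exact h7 z hz⟩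
  · rintro ⟨u, hu, w, hw, h3, h4, h5, h6, h7⟩
    exact ⟨u, hu, w, hw, h3, by rw [h1 u hu]; exact h4, by rw [h1 w hw]; exact h5,
      fun z hz => by rw [h2 u hu z hz]; exact h6 z hz,
      fun z hz => by rw [h2 w hw z hz]; exact h7 z hz⟩

open Classical in
/-- the typing -/
theorem typing {V : Type} [Fintype V] (G : SimpleGraph V) [DecidableRel G.Adj]
    (K D Q w k s' g : ℕ) (hK : 1 ≤ K) (hQ : 1 ≤ Q) (hD1 : 1 ≤ D) (hD : ∀ v, G.degree v ≤ D)
    (hs'D : s' ≤ D) (hQk : Q ≤ k + 1) (hwg : w ≤ k + g)
    (x : ℝ) (hx : 0 ≤ x) (hx1 : x ≤ 1)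
    (hw : (1 + x) * D / K ≤ ((w + 1 : ℕ) : ℝ)) (hk : (1 + x) * s' / K ≤ ((k + 1 : ℕ) : ℝ))
    (η a₀ t : ℝ) (ht : 0 ≤ t) (hη0 : 0 ≤ η)
    (hη : η ≤ (1 - 1 / ((K * Q : ℕ) : ℝ)) ^ (2 * D))
    (hmean : ∀ v, s' < G.degree v →
      2 * (a₀ + t) ≤ ((NA G (G.neighborFinset v)).card : ℝ) * Q *
      ((1 / ((K * Q : ℕ) : ℝ)) ^ 2 * (1 - 1 / ((K * Q : ℕ) : ℝ)) ^ D))
    (hg : 4 * (g : ℝ) ≤ η * a₀)
    (h4 : 4 * (K * (2 * Real.exp (-(x ^ 2 * s' / (3 * K))) +
      (Real.exp (-(t ^ 2) / (8 * D)) + Real.exp (-(η * a₀ / 4))))) * (4 * D ^ 4 : ℕ) ≤ 1) :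
    ∃ T : V → ℕ, (∀ v, T v < K) ∧
      (∀ v y, ((G.neighborFinset v).filter (fun u => T u = y)).card ≤ w) ∧
      ∃ c : V → ℕ, (∀ v, c v < k + 1) ∧ ∀ u v, G.Adj u v → T u = T v → c u ≠ c v := by
  have hX : Fintype.card (Fin K × Fin Q) = K * Q := by
    rw [Fintype.card_prod, Fintype.card_fin, Fintype.card_fin]
  have hne : Nonempty (Fin K × Fin Q) := ⟨(⟨0, hK⟩, ⟨0, hQ⟩)⟩
  have hcardpos : 0 < Fintype.card (V → Fin K × Fin Q) := Fintype.card_pos
  have hexp : Real.exp (-(x ^ 2 * D / (3 * K))) ≤ Real.exp (-(x ^ 2 * s' / (3 * K))) := by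
    apply Real.exp_le_exp.2
    have : (s' : ℝ) ≤ D := by exact_mod_cast hs'D
    have h2 : x ^ 2 * s' / (3 * K) ≤ x ^ 2 * D / (3 * K) := by gcongr
    linarith
  obtain ⟨s, hs⟩ := lll (ι := V) univ
    (fun v (s : V → Fin K × Fin Q) => ∃ y : Fin K,
      w + 1 ≤ ((G.neighborFinset v).filter (fun u => (s u).1 = y)).card ∨
      k + 1 + (GD G (G.neighborFinset v) (Pal K Q y) s).card ≤
        ((G.neighborFinset v).filter (fun u => (s u).1 = y)).card) (fun v => S2 G v)
    (by
      intro v _ s s' hag hbad
      obtain ⟨y, hy⟩ := hbad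
      refine ⟨y, ?_⟩
      have e1 : (G.neighborFinset v).filter (fun u => (s u).1 = y) =
          (G.neighborFinset v).filter (fun u => (s' u).1 = y) := by
        apply Finset.filter_congr
        intro u hu
        rw [hag u (by unfold S2; rw [mem_union]; left; exact hu)]
      rw [e1, GD_congr G v (Pal K Q y) s s' hag] at hy
      exact hy)
    (K * (2 * Real.exp (-(x ^ 2 * s' / (3 * K))) +
      (Real.exp (-(t ^ 2) / (8 * D)) + Real.exp (-(η * a₀ / 4))))) (4 * D ^ 4) (by positivity)
    (by
      intro v _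
      obtain ⟨E2, hE2⟩ : ∃ E2 : Fin K → (V → Fin K × Fin Q) → Prop, E2 = fun y s =>
        (G.degree v ≤ s' ∧ k + 1 ≤ ((G.neighborFinset v).filter (fun u => (s u).1 = y)).card) ∨
        (¬ G.degree v ≤ s' ∧ (GD G (G.neighborFinset v) (Pal K Q y) s).card < g) := ⟨_, rfl⟩
      have hsub : ev (fun s : V → Fin K × Fin Q => ∃ y : Fin K,
          w + 1 ≤ ((G.neighborFinset v).filter (fun u => (s u).1 = y)).card ∨
          k + 1 + (GD G (G.neighborFinset v) (Pal K Q y) s).card ≤
            ((G.neighborFinset v).filter (fun u => (s u).1 = y)).card) ⊆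
          (Finset.univ : Finset (Fin K)).biUnion
            (fun y => ev (fun s : V → Fin K × Fin Q =>
              w + 1 ≤ ((G.neighborFinset v).filter (fun u => (s u).1 = y)).card) ∪
              ev (fun s : V → Fin K × Fin Q => E2 y s)) := by
        intro s hs
        rw [mem_ev] at hs
        obtain ⟨y, hy⟩ := hs
        rw [Finset.mem_biUnion]
        refine ⟨y, Finset.mem_univ _, ?_⟩
        rw [mem_union]
        by_cases h1 : w + 1 ≤ ((G.neighborFinset v).filter (fun u => (s u).1 = y)).card
        · left; exact mem_ev.2 h1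
        · right
          rw [mem_ev, hE2]
          have h2 := hy.resolve_left h1
          by_cases h3 : G.degree v ≤ s'
          · left; exact ⟨h3, by omega⟩
          · right; exact ⟨h3, by omega⟩
      have h1 := (Finset.card_le_card hsub).trans Finset.card_biUnion_le
      have h2 : (cnt (fun s : V → Fin K × Fin Q => ∃ y : Fin K,
          w + 1 ≤ ((G.neighborFinset v).filter (fun u => (s u).1 = y)).card ∨
          k + 1 + (GD G (G.neighborFinset v) (Pal K Q y) s).card ≤
            ((G.neighborFinset v).filter (fun u => (s u).1 = y)).card) : ℝ) ≤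
          ∑ y : Fin K, ((cnt (fun s : V → Fin K × Fin Q =>
              w + 1 ≤ ((G.neighborFinset v).filter (fun u => (s u).1 = y)).card) : ℝ) +
              (cnt (fun s : V → Fin K × Fin Q => E2 y s) : ℝ)) := by
        have h3 : (cnt (fun s : V → Fin K × Fin Q => ∃ y : Fin K,
          w + 1 ≤ ((G.neighborFinset v).filter (fun u => (s u).1 = y)).card ∨
          k + 1 + (GD G (G.neighborFinset v) (Pal K Q y) s).card ≤
            ((G.neighborFinset v).filter (fun u => (s u).1 = y)).card)) ≤
          ∑ y : Fin K, ((cnt (fun s : V → Fin K × Fin Q =>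
              w + 1 ≤ ((G.neighborFinset v).filter (fun u => (s u).1 = y)).card)) +
              (cnt (fun s : V → Fin K × Fin Q => E2 y s))) := by
          refine h1.trans (Finset.sum_le_sum ?_)
          intro y _
          exact Finset.card_union_le _ _
        exact_mod_cast h3
      refine h2.trans ?_
      have h5 : ∀ y ∈ (univ : Finset (Fin K)),
          ((cnt (fun s : V → Fin K × Fin Q =>
              w + 1 ≤ ((G.neighborFinset v).filter (fun u => (s u).1 = y)).card) : ℝ) +
              (cnt (fun s : V → Fin K × Fin Q => E2 y s) : ℝ)) ≤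
            (2 * Real.exp (-(x ^ 2 * s' / (3 * K))) +
              (Real.exp (-(t ^ 2) / (8 * D)) + Real.exp (-(η * a₀ / 4)))) *
              Fintype.card (V → Fin K × Fin Q) := by
        intro y _
        have h6 : (cnt (fun s : V → Fin K × Fin Q =>
              w + 1 ≤ ((G.neighborFinset v).filter (fun u => (s u).1 = y)).card) : ℝ) ≤
              Real.exp (-(x ^ 2 * s' / (3 * K))) * Fintype.card (V → Fin K × Fin Q) := by
          rw [cnt_eq]
          exact (tail2 K Q D hK (G.neighborFinset v) (by
            rw [SimpleGraph.card_neighborFinset_eq_degree]; exact hD v) y x hx hx1 (w + 1) hw).trans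
            (mul_le_mul_of_nonneg_right hexp (by positivity))
        have h7 : (cnt (fun s : V → Fin K × Fin Q => E2 y s) : ℝ) ≤
            (Real.exp (-(x ^ 2 * s' / (3 * K))) +
              (Real.exp (-(t ^ 2) / (8 * D)) + Real.exp (-(η * a₀ / 4)))) *
              Fintype.card (V → Fin K × Fin Q) := by
          rw [cnt_eq]
          by_cases hdeg : G.degree v ≤ s'
          · have h8 := tail2 K Q s' hK (G.neighborFinset v) (by
              rw [SimpleGraph.card_neighborFinset_eq_degree]; exact hdeg) y x hx hx1 (k + 1) hk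
            have e : univ.filter (fun s : V → Fin K × Fin Q => E2 y s) =
                univ.filter (fun s : V → Fin K × Fin Q =>
                  k + 1 ≤ ((G.neighborFinset v).filter (fun u => (s u).1 = y)).card) := by
              apply Finset.filter_congr
              intro s _
              rw [hE2]
              constructor
              · rintro (h | h)
                · exact h.2
                · exact absurd hdeg h.1
              · intro h; left; exact ⟨hdeg, h⟩
            rw [e]
            refine h8.trans (mul_le_mul_of_nonneg_right ?_ (by positivity))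
            have := Real.exp_pos (-(t ^ 2) / (8 * D))
            have := Real.exp_pos (-(η * a₀ / 4))
            linarith
          · have hm := hmean v (not_le.1 hdeg)
            have h8 := GD_tail G (G.neighborFinset v) (Pal K Q y) D g hD (by
              rw [SimpleGraph.card_neighborFinset_eq_degree]; exact hD v) hD1 η a₀ t ht hη0
              (by rw [hX]; exact hη) (by rw [hX, Pal_card]; exact hm) hg
            have e : univ.filter (fun s : V → Fin K × Fin Q => E2 y s) =
                univ.filter (fun s : V → Fin K × Fin Q =>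
                  (GD G (G.neighborFinset v) (Pal K Q y) s).card < g) := by
              apply Finset.filter_congr
              intro s _
              rw [hE2]
              constructor
              · rintro (h | h)
                · exact absurd h.1 hdeg
                · exact h.2
              · intro h; right; exact ⟨hdeg, h⟩
            rw [e]
            refine h8.trans (mul_le_mul_of_nonneg_right ?_ (by positivity))
            have := Real.exp_pos (-(x ^ 2 * s' / (3 * K)))
            linarith
        have e : (2 * Real.exp (-(x ^ 2 * s' / (3 * K))) +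
              (Real.exp (-(t ^ 2) / (8 * D)) + Real.exp (-(η * a₀ / 4)))) *
              (Fintype.card (V → Fin K × Fin Q) : ℝ) =
            Real.exp (-(x ^ 2 * s' / (3 * K))) * Fintype.card (V → Fin K × Fin Q) +
            (Real.exp (-(x ^ 2 * s' / (3 * K))) +
              (Real.exp (-(t ^ 2) / (8 * D)) + Real.exp (-(η * a₀ / 4)))) *
              Fintype.card (V → Fin K × Fin Q) := by ring
        rw [e]
        exact add_le_add h6 h7
      refine (Finset.sum_le_sum h5).trans ?_
      rw [Finset.sum_const, Finset.card_univ, Fintype.card_fin, nsmul_eq_mul]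
      exact le_of_eq (by ring))
    (by
      intro v _
      exact S2_dep G D hD1 hD v)
    (by exact_mod_cast h4) (by
      have : 1 ≤ D ^ 4 := Nat.one_le_pow _ _ hD1
      omega) hcardpos
  have hgood : ∀ v (y : Fin K), ((G.neighborFinset v).filter (fun u => (s u).1 = y)).card ≤ w ∧
      ((G.neighborFinset v).filter (fun u => (s u).1 = y)).card <
      k + 1 + (GD G (G.neighborFinset v) (Pal K Q y) s).card := by
    intro v y
    have h1 := hs v (mem_univ v)
    rw [not_exists] at h1
    have h2 := h1 y
    rw [not_or] at h2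
    omega
  obtain ⟨c, hc1, hc2⟩ := completion G K Q (k + 1) hQk s (fun v y => (hgood v y).2)
  refine ⟨fun v => ((s v).1 : ℕ), fun v => (s v).1.2, ?_, c, hc1, ?_⟩
  · intro v y
    by_cases hy : y < K
    · have h3 : (G.neighborFinset v).filter (fun u => ((s u).1 : ℕ) = y) =
          (G.neighborFinset v).filter (fun u => (s u).1 = ⟨y, hy⟩) := by
        apply Finset.filter_congr
        intro u _
        rw [Fin.ext_iff]
      rw [h3]
      exact (hgood v ⟨y, hy⟩).1
    · have h3 : (G.neighborFinset v).filter (fun u => ((s u).1 : ℕ) = y) = ∅ := by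
        apply Finset.filter_eq_empty_iff.2
        intro u _ h
        exact hy (by rw [← h]; exact (s u).1.2)
      rw [h3]; simp
  · intro u v huv ht
    exact hc2 u v huv (Fin.ext ht)

end Pool.Agent.TH104.LS
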