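import Mathlib
import Pool.Agent.TH104.HY.E
import Pool.Agent.TH104.LS.D

set_option autoImplicit false

/-!
# Graphs with sparse neighbourhoods
-/

namespace Pool.Agent.TH104.LS

open Finset Pool.Agent.Helper635.LLL Pool.Agent.H238R2.HY Pool.Agent.TH104.HY

lemma pow_low (r D : ℕ) (hr : 1 ≤ r) (hD : D ≤ 4 * r) :
    (1 : ℝ) / 16 ≤ (1 - 1 / ((2 * r : ℕ) : ℝ)) ^ D := by
  have hr0 : (0 : ℝ) < r := by exact_mod_cast hr
  have hr1 : (1 : ℝ) ≤ r := by exact_mod_cast hr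
  have e : ((2 * r : ℕ) : ℝ) = 2 * (r : ℝ) := by push_cast; ring
  rw [e]
  have h1 : 1 / (2 * (r : ℝ)) ≤ 1 / 2 := by
    apply one_div_le_one_div_of_le (by norm_num)
    linarith
  have h0 : 0 ≤ 1 / (2 * (r : ℝ)) := by positivity
  have h2 : (1 : ℝ) / 2 ≤ (1 - 1 / (2 * (r : ℝ))) ^ r := by
    have h3 := one_add_mul_le_pow (a := -(1 / (2 * (r : ℝ)))) (by linarith) r
    have h4 : 1 + (r : ℝ) * -(1 / (2 * (r : ℝ))) = 1 / 2 := by field_simp; ring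
    rw [h4] at h3
    rw [sub_eq_add_neg]
    exact h3
  have h5 : (1 : ℝ) / 16 ≤ (1 - 1 / (2 * (r : ℝ))) ^ (4 * r) := by
    have h6 : (1 - 1 / (2 * (r : ℝ))) ^ (4 * r) = ((1 - 1 / (2 * (r : ℝ))) ^ r) ^ 4 := by
      rw [← pow_mul]; congr 1; ring
    rw [h6]
    calc (1 : ℝ) / 16 = (1 / 2) ^ 4 := by norm_num
      _ ≤ _ := pow_le_pow_left₀ (by norm_num) h2 4
  exact h5.trans (pow_le_pow_of_le_one (by linarith) (by linarith) hD)

lemma exp_small5 {c D : ℝ} (hc : 0 < c) (hD : 0 < D) :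
    Real.exp (-(c * D)) * D ^ 4 ≤ 120 / (c ^ 5 * D) := by
  have h1 := Real.pow_div_factorial_le_exp (c * D) (by positivity) 5
  have h2 : (Nat.factorial 5 : ℝ) = 120 := by norm_num [Nat.factorial]
  rw [h2] at h1
  rw [Real.exp_neg]
  have h3 : (0 : ℝ) < (c * D) ^ 5 / 120 := by positivity
  have h4 : (Real.exp (c * D))⁻¹ ≤ ((c * D) ^ 5 / 120)⁻¹ := inv_anti₀ h3 h1
  calc (Real.exp (c * D))⁻¹ * D ^ 4 ≤ ((c * D) ^ 5 / 120)⁻¹ * D ^ 4 :=
        mul_le_mul_of_nonneg_right h4 (by positivity)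
    _ = 120 / (c ^ 5 * D) := by field_simp

lemma lll_number {m δ D s' Q x t a₀ : ℝ} (hm : 1 ≤ m) (hδ : 0 < δ) (hδ1 : δ ≤ 1) (hD : 0 < D)
    (hx : x = 1 / (4 * m)) (hs' : D / 2 ≤ s') (hQ : D ≤ 4 * m * Q) (ht : t = δ * Q / 256)
    (ha : a₀ = δ * Q / 256)
    (hD3 : 15360 * m * (2 ^ 23 * m ^ 3 / δ ^ 2) ^ 5 ≤ D) :
    4 * (2 * m * (2 * Real.exp (-(x ^ 2 * s' / (3 * (2 * m)))) +
      (Real.exp (-(t ^ 2) / (8 * D)) + Real.exp (-(1 / 256 * a₀ / 4))))) * (4 * D ^ 4) ≤ 1 := by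
  have hm0 : 0 < m := by linarith
  obtain ⟨c, hc⟩ : ∃ c : ℝ, c = δ ^ 2 / (2 ^ 23 * m ^ 3) := ⟨_, rfl⟩
  have hc0 : 0 < c := by rw [hc]; positivity
  have hQ0 : 0 < Q := by
    by_contra h
    rw [not_lt] at h
    have : 4 * m * Q ≤ 0 := mul_nonpos_of_nonneg_of_nonpos (by positivity) h
    linarith
  have hm2 : 1 ≤ m ^ 2 := one_le_pow₀ hm
  have hδ2 : δ ^ 2 ≤ 1 := pow_le_one₀ hδ.le hδ1
  have hδ3 : δ ^ 2 ≤ δ := by nlinarith
  have hQm : δ * D / (1024 * m) ≤ δ * Q / 256 := by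
    rw [div_le_div_iff₀ (by positivity) (by norm_num)]
    have := mul_le_mul_of_nonneg_left hQ hδ.le
    nlinarith
  have e1 : c * D ≤ x ^ 2 * s' / (3 * (2 * m)) := by
    have h1 : x ^ 2 * (D / 2) / (3 * (2 * m)) ≤ x ^ 2 * s' / (3 * (2 * m)) := by gcongr
    refine le_trans ?_ h1
    have h2 : x ^ 2 * (D / 2) / (3 * (2 * m)) = D / (192 * m ^ 3) := by
      rw [hx]; field_simp; ring
    rw [h2, hc, div_mul_eq_mul_div, div_le_div_iff₀ (by positivity) (by positivity)]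
    have h3 : δ ^ 2 * D ≤ 1 * D := mul_le_mul_of_nonneg_right hδ2 hD.le
    have h4 : δ ^ 2 * D * (192 * m ^ 3) ≤ 1 * D * (192 * m ^ 3) :=
      mul_le_mul_of_nonneg_right h3 (by positivity)
    have h5 : 0 ≤ D * m ^ 3 := by positivity
    nlinarith
  have e2 : c * D ≤ t ^ 2 / (8 * D) := by
    have h1 : (δ * D / (1024 * m)) ^ 2 / (8 * D) ≤ t ^ 2 / (8 * D) := by
      rw [ht]
      gcongr
    refine le_trans ?_ h1
    have h2 : (δ * D / (1024 * m)) ^ 2 / (8 * D) = δ ^ 2 * D / (2 ^ 23 * m ^ 2) := by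
      field_simp; ring
    rw [h2, hc, div_mul_eq_mul_div]
    apply div_le_div_of_nonneg_left (by positivity) (by positivity)
    have : m ^ 2 * 1 ≤ m ^ 2 * m := mul_le_mul_of_nonneg_left hm (by positivity)
    nlinarith
  have e3 : c * D ≤ 1 / 256 * a₀ / 4 := by
    have h1 : 1 / 256 * (δ * D / (1024 * m)) / 4 ≤ 1 / 256 * a₀ / 4 := by
      rw [ha]
      gcongr
    refine le_trans ?_ h1
    have h2 : 1 / 256 * (δ * D / (1024 * m)) / 4 = δ * D / (2 ^ 20 * m) := by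
      field_simp; ring
    rw [h2, hc, div_mul_eq_mul_div, div_le_div_iff₀ (by positivity) (by positivity)]
    have h3 : δ ^ 2 * D ≤ δ * D := mul_le_mul_of_nonneg_right hδ3 hD.le
    have h4 : m * 1 ≤ m * m ^ 2 := mul_le_mul_of_nonneg_left hm2 hm0.le
    have h5 : δ ^ 2 * D * (2 ^ 20 * m) ≤ δ * D * (2 ^ 20 * m) :=
      mul_le_mul_of_nonneg_right h3 (by positivity)
    refine h5.trans ?_
    apply mul_le_mul_of_nonneg_left _ (by positivity)
    nlinarith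
  have f1 : Real.exp (-(x ^ 2 * s' / (3 * (2 * m)))) ≤ Real.exp (-(c * D)) :=
    Real.exp_le_exp.2 (by linarith)
  have f2 : Real.exp (-(t ^ 2) / (8 * D)) ≤ Real.exp (-(c * D)) := by
    apply Real.exp_le_exp.2
    rw [neg_div]
    linarith
  have f3 : Real.exp (-(1 / 256 * a₀ / 4)) ≤ Real.exp (-(c * D)) :=
    Real.exp_le_exp.2 (by linarith)
  have h5 := exp_small5 hc0 hD
  have h6 : 120 / (c ^ 5 * D) * (128 * m) ≤ 1 := by
    have h7 : 120 / (c ^ 5 * D) * (128 * m) = 15360 * m * (2 ^ 23 * m ^ 3 / δ ^ 2) ^ 5 / D := by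
      rw [hc]
      field_simp
      ring
    rw [h7, div_le_one hD]
    exact hD3
  calc 4 * (2 * m * (2 * Real.exp (-(x ^ 2 * s' / (3 * (2 * m)))) +
      (Real.exp (-(t ^ 2) / (8 * D)) + Real.exp (-(1 / 256 * a₀ / 4))))) * (4 * D ^ 4)
      ≤ 4 * (2 * m * (2 * Real.exp (-(c * D)) +
      (Real.exp (-(c * D)) + Real.exp (-(c * D))))) * (4 * D ^ 4) := by gcongr
    _ = Real.exp (-(c * D)) * D ^ 4 * (128 * m) := by ring
    _ ≤ 120 / (c ^ 5 * D) * (128 * m) := mul_le_mul_of_nonneg_right h5 (by positivity)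
    _ ≤ 1 := h6

lemma mean_ok {δ D Q n b NAc : ℝ} (hδ : 0 < δ) (hD : 0 < D) (hQ : 0 ≤ Q) (hn0 : 0 < n)
    (hn : n ≤ D) (hb : 1 / 16 ≤ b) (hNA : δ / 4 * D ^ 2 ≤ NAc) :
    2 * (δ * Q / 256 + δ * Q / 256) ≤ NAc * Q * ((1 / n) ^ 2 * b) := by
  have h1 : (1 / D) ^ 2 ≤ (1 / n) ^ 2 := by
    apply pow_le_pow_left₀ (by positivity)
    exact one_div_le_one_div_of_le hn0 hn
  have h2 : (1 / D) ^ 2 * (1 / 16) ≤ (1 / n) ^ 2 * b := mul_le_mul h1 hb (by norm_num)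
    (by positivity)
  have h3 : δ / 4 * D ^ 2 * Q ≤ NAc * Q := mul_le_mul_of_nonneg_right hNA hQ
  have h4 : δ / 4 * D ^ 2 * Q * ((1 / D) ^ 2 * (1 / 16)) ≤ NAc * Q * ((1 / n) ^ 2 * b) :=
    mul_le_mul h3 h2 (by positivity) (by
      have : 0 ≤ NAc := le_trans (by positivity) hNA
      positivity)
  refine le_trans (le_of_eq ?_) h4
  field_simp
  ring

lemma NA_count {V : Type} [Fintype V] [DecidableEq V] (G : SimpleGraph V) [DecidableRel G.Adj]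
    (N : Finset V) :
    N.card ^ 2 ≤ N.card + ((N ×ˢ N).filter (fun e => G.Adj e.1 e.2)).card + (NA G N).card := by
  have h1 : N ×ˢ N ⊆ (N.image (fun v => (v, v)) ∪ (N ×ˢ N).filter (fun e => G.Adj e.1 e.2)) ∪
      NA G N := by
    intro e he
    rw [mem_union, mem_union, mem_image, mem_filter]
    unfold NA
    rw [mem_filter]
    by_cases h : e.1 = e.2
    · left; left
      rw [mem_product] at he
      exact ⟨e.1, he.1, Prod.ext rfl h⟩
    · by_cases h2 : G.Adj e.1 e.2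
      · left; right; exact ⟨he, h2⟩
      · right; exact ⟨he, h, h2⟩
  have h2 := (Finset.card_le_card h1).trans ((Finset.card_union_le _ _).trans
    (Nat.add_le_add_right (Finset.card_union_le _ _) _))
  rw [Finset.card_product] at h2
  have h3 : (N.image (fun v => (v, v))).card ≤ N.card := Finset.card_image_le
  rw [pow_two]
  omega

lemma NA_real {δ e D s' d a b : ℝ} (hδ : 0 < δ) (he : e = δ / 2 ^ 20) (hδ1 : δ ≤ 1)
    (hD : 2 ≤ δ * D) (hs' : (1 - e) * D ≤ s' + 1) (hd : s' + 1 ≤ d) (hdD : d ≤ D)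
    (ha : a ≤ (1 - δ) * D ^ 2) (h : d ^ 2 ≤ d + a + b) : δ / 4 * D ^ 2 ≤ b := by
  have hD0 : 0 < D := by
    by_contra h
    rw [not_lt] at h
    have := mul_nonpos_of_nonneg_of_nonpos hδ.le h
    linarith
  have he1 : e ≤ δ / 8 := by rw [he]; linarith
  have he0 : 0 < e := by rw [he]; positivity
  have h1 : (1 - e) * D ≤ d := hs'.trans hd
  have h2 : ((1 - e) * D) ^ 2 ≤ d ^ 2 := by
    apply pow_le_pow_left₀ _ h1
    have : e ≤ 1 := by linarith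
    exact mul_nonneg (by linarith) hD0.le
  have h3 : ((1 - e) * D) ^ 2 = (1 - 2 * e) * D ^ 2 + (e * D) ^ 2 := by ring
  have h4 : 0 ≤ (e * D) ^ 2 := by positivity
  have h5 : 2 * D ≤ δ * D * D := mul_le_mul_of_nonneg_right hD hD0.le
  have h6 : e * D ^ 2 ≤ δ / 8 * D ^ 2 := mul_le_mul_of_nonneg_right he1 (by positivity)
  nlinarith

end Pool.Agent.TH104.LS
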